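import Pool.Agent.H14.AVR.Stmts3

/-!
# AVR: EQF, equidistribution of the equations of height `n`
-/

set_option autoImplicit false

namespace Pool.AVR

namespace EQF

open Polynomial

/-- Preimages under a surjective homomorphism of finite groups. -/
lemma ncard_preimage {G H : Type} [AddCommGroup G] [AddCommGroup H] (f : G →+ H)
    (hf : Function.Surjective f) (T : Set H) :
    (f ⁻¹' T).ncard = T.ncard * Nat.card f.ker := by
  rw [← Nat.card_coe_set_eq, ← Nat.card_coe_set_eq, ← Nat.card_prod]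
  obtain ⟨s, hs⟩ := hf.hasRightInverse
  refine Nat.card_congr ⟨fun g => (⟨f g.1, g.2⟩, ⟨g.1 - s (f g.1), ?_⟩),
    fun t => ⟨t.2.1 + s t.1.1, ?_⟩, ?_, ?_⟩
  · rw [AddMonoidHom.mem_ker, map_sub, hs, sub_self]
  · show f (t.2.1 + s t.1.1) ∈ T
    rw [map_add, AddMonoidHom.mem_ker.1 t.2.2, hs, zero_add]
    exact t.1.2
  · intro g
    apply Subtype.ext
    simp
  · rintro ⟨⟨h, hh⟩, ⟨k, hk⟩⟩
    have hk' : f k = 0 := AddMonoidHom.mem_ker.1 hk
    have h1 : f (k + s h) = h := by rw [map_add, hk', hs, zero_add]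
    apply Prod.ext
    · apply Subtype.ext
      exact h1
    · apply Subtype.ext
      simp only
      rw [h1]
      abel

lemma mem_degreeLT_succ {F : Type} [Field F] (N : ℕ) (p : F[X]) :
    p ∈ degreeLT F (N + 1) ↔ p.natDegree ≤ N := by
  rw [mem_degreeLT, degree_lt_iff_coeff_zero, natDegree_le_iff_coeff_eq_zero]
  simp only [Nat.lt_iff_add_one_le]

lemma card_degreeLT {F : Type} [Field F] [Finite F] (N : ℕ) :
    Nat.card (degreeLT F N) = Nat.card F ^ N := by
  rw [Nat.card_congr (degreeLTEquiv F N).toEquiv, Nat.card_fun, Nat.card_fin]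

instance {F : Type} [Field F] [Finite F] (N : ℕ) : Finite (degreeLT F N) :=
  Finite.of_equiv _ (degreeLTEquiv F N).toEquiv.symm

lemma card_adjoinRoot {F : Type} [Field F] [Finite F] (M : F[X]) (hM : M ≠ 0) :
    Nat.card (AdjoinRoot M) = Nat.card F ^ M.natDegree := by
  have h := (AdjoinRoot.powerBasis hM)
  have h1 : Module.Finite F (AdjoinRoot M) := (AdjoinRoot.powerBasis hM).finite
  rw [Module.natCard_eq_pow_finrank (K := F), (AdjoinRoot.powerBasis hM).finrank,
    AdjoinRoot.powerBasis_dim]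

lemma card_dual (F : Type) [Field F] [Finite F] : Nat.card (DualNumber F) = Nat.card F ^ 2 := by
  have : Nat.card (DualNumber F) = Nat.card (F × F) := rfl
  rw [this, Nat.card_prod, sq]

/-- The one-entry map. -/
noncomputable def one {F : Type} [Field F] (M : F[X]) (N : ℕ) :
    degreeLT F (N + 1) →+ AdjoinRoot M × DualNumber F where
  toFun p := (AdjoinRoot.mk M p.1, top N p.1)
  map_zero' := by
    apply Prod.ext
    · simp
    · apply Prod.ext
      · exact coeff_zero N
      · exact coeff_zero (N - 1)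
  map_add' p q := by
    apply Prod.ext
    · simp
    · apply Prod.ext
      · exact coeff_add p.1 q.1 N
      · exact coeff_add p.1 q.1 (N - 1)

lemma one_surj {F : Type} [Field F] (M : F[X]) (hM : M ≠ 0) (N : ℕ) (h : M.natDegree + 1 ≤ N) :
    Function.Surjective (one M N) := by
  rintro ⟨w, v⟩
  obtain ⟨p0, rfl⟩ := AdjoinRoot.mk_surjective w
  obtain ⟨v1, v2⟩ := v
  set t : F[X] := C v1 * X ^ N + C v2 * X ^ (N - 1) with ht
  set c : F[X] := (p0 - t) % M with hc
  have hcd : c.degree < M.natDegree := by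
    rw [← degree_eq_natDegree hM]
    exact EuclideanDomain.mod_lt _ hM
  have hc0 : ∀ m, M.natDegree ≤ m → c.coeff m = 0 := (degree_lt_iff_coeff_zero _ _).1 hcd
  have hN : (t + c).coeff N = v1 := by
    rw [coeff_add, hc0 N (by omega), ht]
    have h0 : N ≠ N - 1 := by omega
    simp [coeff_X_pow, h0]
  have hN1 : (t + c).coeff (N - 1) = v2 := by
    rw [coeff_add, hc0 (N - 1) (by omega), ht]
    have h0 : N - 1 ≠ N := by omega
    simp [coeff_X_pow, h0]
  have hmem : t + c ∈ degreeLT F (N + 1) := by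
    rw [mem_degreeLT, degree_lt_iff_coeff_zero]
    intro m hm
    rw [coeff_add, hc0 m (by omega), ht]
    simp only [coeff_add, coeff_C_mul, coeff_X_pow]
    rw [if_neg (by omega), if_neg (by omega)]
    ring
  refine ⟨⟨t + c, hmem⟩, ?_⟩
  apply Prod.ext
  · show AdjoinRoot.mk M (t + c) = AdjoinRoot.mk M p0
    rw [AdjoinRoot.mk_eq_mk]
    have := EuclideanDomain.div_add_mod (p0 - t) M
    refine ⟨- ((p0 - t) / M), ?_⟩
    rw [hc]
    linear_combination this
  · apply Prod.ext
    · exact hN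
    · exact hN1

end EQF

open EQF Polynomial in
theorem eqf_thm : EQFStmt := by
  intro F _ _ n M hM hn hd W V
  let G := degreeLT F (2 * n + 1) × degreeLT F (4 * n + 1) × degreeLT F (6 * n + 1)
  let H := (AdjoinRoot M × AdjoinRoot M × AdjoinRoot M) ×
    (DualNumber F × DualNumber F × DualNumber F)
  let φ : G →+ H :=
    { toFun := fun g => (((one M (2 * n) g.1).1, (one M (4 * n) g.2.1).1, (one M (6 * n) g.2.2).1),
        ((one M (2 * n) g.1).2, (one M (4 * n) g.2.1).2, (one M (6 * n) g.2.2).2))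
      map_zero' := by
        show (((one M (2 * n) 0).1, (one M (4 * n) 0).1, (one M (6 * n) 0).1),
          ((one M (2 * n) 0).2, (one M (4 * n) 0).2, (one M (6 * n) 0).2)) = _
        rw [map_zero, map_zero, map_zero]
        rfl
      map_add' := fun x y => by
        show (((one M (2 * n) (x.1 + y.1)).1, (one M (4 * n) (x.2.1 + y.2.1)).1,
            (one M (6 * n) (x.2.2 + y.2.2)).1),
          ((one M (2 * n) (x.1 + y.1)).2, (one M (4 * n) (x.2.1 + y.2.1)).2,
            (one M (6 * n) (x.2.2 + y.2.2)).2)) = _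
        rw [map_add, map_add, map_add]
        rfl }
  have hφ : Function.Surjective φ := by
    rintro ⟨⟨w1, w2, w3⟩, ⟨v1, v2, v3⟩⟩
    obtain ⟨g1, h1⟩ := one_surj M hM (2 * n) (by omega) (w1, v1)
    obtain ⟨g2, h2⟩ := one_surj M hM (4 * n) (by omega) (w2, v2)
    obtain ⟨g3, h3⟩ := one_surj M hM (6 * n) (by omega) (w3, v3)
    refine ⟨(g1, g2, g3), ?_⟩
    show (((one M (2 * n) g1).1, (one M (4 * n) g2).1, (one M (6 * n) g3).1),
        ((one M (2 * n) g1).2, (one M (4 * n) g2).2, (one M (6 * n) g3).2)) = _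
    rw [h1, h2, h3]
  let ι : G → F[X] × F[X] × F[X] := fun g => (g.1.1, g.2.1.1, g.2.2.1)
  have hι : Function.Injective ι := by
    rintro ⟨a, b, c⟩ ⟨a', b', c'⟩ h
    simp only [ι, Prod.mk.injEq] at h
    obtain ⟨h1, h2, h3⟩ := h
    rw [Subtype.ext h1, Subtype.ext h2, Subtype.ext h3]
  have hset : {f ∈ Fam F n |
      (AdjoinRoot.mk M f.1, AdjoinRoot.mk M f.2.1, AdjoinRoot.mk M f.2.2) ∈ W ∧
        (top (2 * n) f.1, top (4 * n) f.2.1, top (6 * n) f.2.2) ∈ V} = ι '' (φ ⁻¹' (W ×ˢ V)) := by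
    ext f
    constructor
    · rintro ⟨⟨h1, h2, h3⟩, hW, hV⟩
      exact ⟨(⟨f.1, (mem_degreeLT_succ _ _).2 h1⟩, ⟨f.2.1, (mem_degreeLT_succ _ _).2 h2⟩,
        ⟨f.2.2, (mem_degreeLT_succ _ _).2 h3⟩), ⟨hW, hV⟩, rfl⟩
    · rintro ⟨⟨a, b, c⟩, ⟨hW, hV⟩, rfl⟩
      exact ⟨⟨(mem_degreeLT_succ _ _).1 a.2, (mem_degreeLT_succ _ _).1 b.2,
        (mem_degreeLT_succ _ _).1 c.2⟩, hW, hV⟩
  rw [hset, Set.ncard_image_of_injective _ hι, ncard_preimage φ hφ, Set.ncard_prod]
  have hG : Nat.card G = Nat.card F ^ (12 * n + 3) := by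
    simp only [G]
    rw [Nat.card_prod, Nat.card_prod, card_degreeLT, card_degreeLT, card_degreeLT]
    ring
  have hH : Nat.card H = Nat.card F ^ (3 * M.natDegree) * Nat.card F ^ 6 := by
    simp only [H]
    rw [Nat.card_prod, Nat.card_prod, Nat.card_prod, Nat.card_prod, Nat.card_prod,
      card_adjoinRoot M hM, card_dual]
    ring
  have hGH : Nat.card G = Nat.card H * Nat.card φ.ker := by
    have := ncard_preimage φ hφ Set.univ
    rwa [Set.preimage_univ, Set.ncard_univ, Set.ncard_univ] at this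
  rw [← hH, ← hG, hGH]
  ring

end Pool.AVR
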