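import Pool.Agent.H14.AVR.Stmts3

/-!
# AVR: LDA, the local count when the first entry is a unit
-/

set_option autoImplicit false

namespace Pool.AVR

namespace LDA

open Matrix Polynomial

variable {R : Type} [CommRing R] {ϖ : R}

lemma dvd_iff_not_unit (h : Len2 R ϖ) (x : R) : ϖ ∣ x ↔ ¬ IsUnit x := by
  constructor
  · intro hd hu
    exact h.nonunit (isUnit_of_dvd_unit hd hu)
  · intro hu
    rcases h.unit x with h1 | h1
    · exact absurd h1 hu
    · exact h1

lemma card_span (h : Len2 R ϖ) : Nat.card (Ideal.span {ϖ} : Ideal R) = res ϖ := by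
  have e := (LinearMap.toSpanSingleton R R ϖ).quotKerEquivRange
  have hk : LinearMap.ker (LinearMap.toSpanSingleton R R ϖ) = (Ideal.span {ϖ} : Ideal R) := by
    ext x
    rw [LinearMap.mem_ker, Ideal.mem_span_singleton, LinearMap.toSpanSingleton_apply, smul_eq_mul]
    constructor
    · intro hx
      exact h.ann x (by rw [mul_comm]; exact hx)
    · rintro ⟨y, rfl⟩
      have := h.sq
      linear_combination y * this
  have hr : LinearMap.range (LinearMap.toSpanSingleton R R ϖ) = (Ideal.span {ϖ} : Ideal R) := by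
    rw [LinearMap.range_toSpanSingleton]
  rw [hk, hr] at e
  unfold res
  exact (Nat.card_congr e.toEquiv).symm

lemma card_ring [Finite R] (h : Len2 R ϖ) : Nat.card R = res ϖ ^ 2 := by
  have h1 := Submodule.card_eq_card_quotient_mul_card (Ideal.span {ϖ} : Ideal R)
  rw [card_span h] at h1
  rw [h1, sq]
  rfl

lemma card_dvd (h : Len2 R ϖ) : {x : R | ϖ ∣ x}.ncard = res ϖ := by
  rw [← card_span h, ← Nat.card_coe_set_eq]
  apply Nat.card_congr
  exact Equiv.subtypeEquivRight fun x => by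
    simp [Ideal.mem_span_singleton]

lemma card_unit [Finite R] (h : Len2 R ϖ) : {x : R | IsUnit x}.ncard = res ϖ ^ 2 - res ϖ := by
  have h1 : {x : R | IsUnit x} = {x : R | ϖ ∣ x}ᶜ := by
    ext x
    simp [dvd_iff_not_unit h x]
  rw [h1, Set.ncard_compl, card_dvd h, card_ring h]

/-- The reduced triples. -/
def T (a b c : R) : Set (R × R × R) := {t | IsUnit t.2.1 ∧ t.2.1 * t.2.2 ^ 2 = - ev a b c t.1}

lemma card_T [Finite R] (h : Len2 R ϖ) (a b c : R) :
    (T a b c).ncard ≤ (res ϖ ^ 2 - res ϖ) *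
      ({s : R | IsUnit (ev a b c s)}.ncard + res ϖ * {s : R | ev a b c s = 0}.ncard) := by
  have hsub : T a b c ⊆ (T a b c ∩ {t | IsUnit (ev a b c t.1)}) ∪
      ({s : R | ev a b c s = 0} ×ˢ ({p : R | IsUnit p} ×ˢ {u : R | ϖ ∣ u})) := by
    rintro ⟨s, p, u⟩ ⟨hp, hu⟩
    simp only at hp hu
    by_cases hs : IsUnit u
    · left
      refine ⟨⟨hp, hu⟩, ?_⟩
      simp only [Set.mem_ofPred_eq]
      have : IsUnit (- ev a b c s) := by
        rw [← hu]
        exact hp.mul (hs.pow 2)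
      simpa using this
    · right
      have hd : ϖ ∣ u := (dvd_iff_not_unit h u).2 hs
      obtain ⟨v, rfl⟩ := hd
      refine ⟨?_, hp, Dvd.intro v rfl⟩
      simp only [Set.mem_ofPred_eq]
      have := h.sq
      linear_combination hu - p * v ^ 2 * this
  have h1 : (T a b c ∩ {t | IsUnit (ev a b c t.1)}).ncard ≤
      (({s : R | IsUnit (ev a b c s)} ×ˢ {u : R | IsUnit u}) : Set (R × R)).ncard := by
    apply Set.ncard_le_ncard_of_injOn (fun t : R × R × R => (t.1, t.2.2))
    · rintro ⟨s, p, u⟩ ⟨⟨hp, hu⟩, hs⟩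
      simp only [Set.mem_ofPred_eq] at hp hu hs
      refine ⟨hs, ?_⟩
      simp only [Set.mem_ofPred_eq]
      have : IsUnit (p * u ^ 2) := by
        rw [hu]
        simpa using hs
      have h2 := isUnit_of_mul_isUnit_right this
      rw [isUnit_pow_iff two_ne_zero] at h2
      exact h2
    · rintro ⟨s, p, u⟩ ⟨⟨hp, hu⟩, hs⟩ ⟨s', p', u'⟩ ⟨⟨hp', hu'⟩, hs'⟩ heq
      simp only [Set.mem_ofPred_eq, Prod.mk.injEq] at hp hu hs hp' hu' hs' heq
      obtain ⟨rfl, rfl⟩ := heq
      have : IsUnit (p * u ^ 2) := by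
        rw [hu]
        simpa using hs
      have h2 := isUnit_of_mul_isUnit_right this
      have h3 : p * u ^ 2 = p' * u ^ 2 := by rw [hu, hu']
      have h4 := h2.mul_right_cancel h3
      rw [h4]
  calc (T a b c).ncard ≤ _ := Set.ncard_le_ncard hsub (Set.toFinite _)
    _ ≤ _ := Set.ncard_union_le _ _
    _ ≤ (({s : R | IsUnit (ev a b c s)} ×ˢ {u : R | IsUnit u}) : Set (R × R)).ncard +
        ({s : R | ev a b c s = 0} ×ˢ ({p : R | IsUnit p} ×ˢ {u : R | ϖ ∣ u})).ncard := by
      gcongr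
    _ = _ := by
      rw [Set.ncard_prod, Set.ncard_prod, Set.ncard_prod, card_unit h, card_dvd h]
      ring

lemma cub_inj {a b c a' b' c' : R} (h : cub a b c = cub a' b' c') : a = a' ∧ b = b' ∧ c = c' := by
  unfold cub at h
  refine ⟨?_, ?_, ?_⟩
  · have := congrArg (fun p => p.coeff 2) h
    simpa [Polynomial.coeff_X, Polynomial.coeff_C, Polynomial.coeff_X_pow] using this
  · have := congrArg (fun p => p.coeff 1) h
    simpa [Polynomial.coeff_X, Polynomial.coeff_C, Polynomial.coeff_X_pow] using this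
  · have := congrArg (fun p => p.coeff 0) h
    simpa [Polynomial.coeff_X, Polynomial.coeff_C, Polynomial.coeff_X_pow] using this

lemma charpoly_coeffs (B : Matrix (Fin 3) (Fin 3) R) (hB : Bᵀ = B) (a b c : R)
    (h : (AA R * B).charpoly = cub a b c) :
    a = -(2 * B 0 2 + B 1 1) ∧
    b = 2 * B 0 2 * B 1 1 + B 0 2 ^ 2 - 2 * B 1 2 * B 0 1 - B 2 2 * B 0 0 ∧
    c = -(B 0 2 ^ 2 * B 1 1 - 2 * B 0 2 * B 1 2 * B 0 1 + B 1 2 ^ 2 * B 0 0 + B 2 2 * B 0 1 ^ 2
      - B 2 2 * B 1 1 * B 0 0) := by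
  have h10 : B 1 0 = B 0 1 := by conv_rhs => rw [← hB, Matrix.transpose_apply]
  have h20 : B 2 0 = B 0 2 := by conv_rhs => rw [← hB, Matrix.transpose_apply]
  have h21 : B 2 1 = B 1 2 := by conv_rhs => rw [← hB, Matrix.transpose_apply]
  have hm : AA R * B = !![B 0 2, B 1 2, B 2 2; B 0 1, B 1 1, B 1 2; B 0 0, B 0 1, B 0 2] := by
    ext i j
    fin_cases i <;> fin_cases j <;>
      simp [AA, Matrix.mul_apply, Fin.sum_univ_three, h10, h20, h21]
  have hc : (AA R * B).charpoly = cub (-(2 * B 0 2 + B 1 1))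
      (2 * B 0 2 * B 1 1 + B 0 2 ^ 2 - 2 * B 1 2 * B 0 1 - B 2 2 * B 0 0)
      (-(B 0 2 ^ 2 * B 1 1 - 2 * B 0 2 * B 1 2 * B 0 1 + B 1 2 ^ 2 * B 0 0 + B 2 2 * B 0 1 ^ 2
      - B 2 2 * B 1 1 * B 0 0)) := by
    rw [hm, Matrix.charpoly, Matrix.det_fin_three]
    have h2 : (C (2 : R) : R[X]) = 2 := map_ofNat C 2
    simp only [Matrix.charmatrix, cub, Matrix.scalar_apply, RingHom.mapMatrix_apply,
      Matrix.sub_apply, Matrix.map_apply, Matrix.diagonal_apply, Matrix.of_apply,
      Matrix.cons_val', Matrix.cons_val_zero, Matrix.cons_val_one, Matrix.cons_val,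
      map_neg, map_add, map_mul, map_sub, map_pow, h2]
    simp
    ring
  rw [hc] at h
  obtain ⟨h1, h2, h3⟩ := cub_inj h
  exact ⟨h1.symm, h2.symm, h3.symm⟩

end LDA

open LDA in
theorem lda_thm : LDAStmt := by
  intro R _ _ ϖ h h2 a b c
  obtain ⟨H, hH⟩ := h2.exists_right_inv
  have key : {B ∈ Fib a b c | IsUnit (B 0 0)}.ncard ≤
      ((Set.univ : Set R) ×ˢ (T a b c)).ncard := by
    apply Set.ncard_le_ncard_of_injOn
      (fun B : Matrix (Fin 3) (Fin 3) R => (B 0 1, (B 1 1 - B 0 1 ^ 2 * Ring.inverse (B 0 0), B 0 0,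
        B 1 2 - (B 0 2 - B 1 1) * B 0 1 * Ring.inverse (B 0 0)
          - B 0 1 ^ 3 * Ring.inverse (B 0 0) ^ 2)))
    · rintro B ⟨⟨hs, hc⟩, hu⟩
      refine ⟨Set.mem_univ _, hu, ?_⟩
      obtain ⟨ha, hb, hc⟩ := charpoly_coeffs B hs a b c hc
      have hP : B 0 0 * Ring.inverse (B 0 0) = 1 := Ring.mul_inverse_cancel _ hu
      simp only [ev]
      have ht : B 0 1 = B 0 0 * (B 0 1 * Ring.inverse (B 0 0)) := by
        linear_combination (- B 0 1) * hP
      have e1 : B 0 1 ^ 2 * Ring.inverse (B 0 0) =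
          B 0 0 * (B 0 1 * Ring.inverse (B 0 0)) ^ 2 := by
        linear_combination (- B 0 1 ^ 2 * Ring.inverse (B 0 0)) * hP
      have e2 : B 0 1 ^ 3 * Ring.inverse (B 0 0) ^ 2 =
          B 0 0 * (B 0 1 * Ring.inverse (B 0 0)) ^ 3 := by
        linear_combination (- B 0 1 ^ 3 * Ring.inverse (B 0 0) ^ 2) * hP
      rw [e1, e2, mul_assoc (B 0 2 - B 1 1), ha, hb, hc]
      generalize B 0 1 * Ring.inverse (B 0 0) = t at *
      rw [ht]
      ring
    · rintro B ⟨⟨hs, hc⟩, hu⟩ B' ⟨⟨hs', hc'⟩, hu'⟩ heq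
      obtain ⟨ha, hb, hc⟩ := charpoly_coeffs B hs a b c hc
      obtain ⟨ha', hb', hc'⟩ := charpoly_coeffs B' hs' a b c hc'
      have hP : B 0 0 * Ring.inverse (B 0 0) = 1 := Ring.mul_inverse_cancel _ hu
      simp only [Prod.mk.injEq] at heq
      obtain ⟨e01, e11, e00, e12⟩ := heq
      rw [← e00, ← e01] at e11 e12
      have f11 : B 1 1 = B' 1 1 := by linear_combination e11
      have f02 : B 0 2 = B' 0 2 := by
        linear_combination H * (ha - ha') - H * f11 - (B 0 2 - B' 0 2) * hH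
      have f12 : B 1 2 = B' 1 2 := by
        rw [← f11, ← f02] at e12
        linear_combination e12
      have f22 : B 2 2 = B' 2 2 := by
        rw [← f11, ← f02, ← f12, ← e00, ← e01] at hb'
        apply hu.mul_right_cancel
        linear_combination hb - hb'
      have h10 : B 1 0 = B 0 1 := by conv_rhs => rw [← hs, Matrix.transpose_apply]
      have h20 : B 2 0 = B 0 2 := by conv_rhs => rw [← hs, Matrix.transpose_apply]
      have h21 : B 2 1 = B 1 2 := by conv_rhs => rw [← hs, Matrix.transpose_apply]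
      have h10' : B' 1 0 = B' 0 1 := by conv_rhs => rw [← hs', Matrix.transpose_apply]
      have h20' : B' 2 0 = B' 0 2 := by conv_rhs => rw [← hs', Matrix.transpose_apply]
      have h21' : B' 2 1 = B' 1 2 := by conv_rhs => rw [← hs', Matrix.transpose_apply]
      ext i j
      fin_cases i <;> fin_cases j
      · exact e00
      · exact e01
      · exact f02
      · exact h10.trans (e01.trans h10'.symm)
      · exact f11
      · exact f12
      · exact h20.trans (f02.trans h20'.symm)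
      · exact h21.trans (f12.trans h21'.symm)
      · exact f22
  calc _ ≤ _ := key
    _ = res ϖ ^ 2 * (T a b c).ncard := by
      rw [Set.ncard_prod, Set.ncard_univ, card_ring h]
    _ ≤ res ϖ ^ 2 * ((res ϖ ^ 2 - res ϖ) *
      ({s : R | IsUnit (ev a b c s)}.ncard + res ϖ * {s : R | ev a b c s = 0}.ncard)) := by
      gcongr
      exact card_T h a b c
    _ = _ := by ring

end Pool.AVR
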